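import Pool.Agent.H52.KP.Targets

set_option autoImplicit false
set_option linter.unusedSectionVars false

/-!
Module ISO of `kpo_modules`: congruent configurations have the same volume functional.
-/

open MeasureTheory Metric Set Topology Filter
open scoped RealInnerProductSpace
open Pool.Agent.H52.KP Pool.Agent.H65k

namespace Pool.Agent.H13.KPO

section isom

variable {n : ℕ} {V V' : Type*} [NormedAddCommGroup V] [InnerProductSpace ℝ V]
  [FiniteDimensional ℝ V] [MeasurableSpace V] [BorelSpace V]
  [NormedAddCommGroup V'] [InnerProductSpace ℝ V']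
  [FiniteDimensional ℝ V'] [MeasurableSpace V'] [BorelSpace V']

lemma U_isometry (M : ℝ → ℝ) (ρ : Fin n → ℝ) (s : ℝ) (c : Fin n → V) (W : V ≃ₗᵢ[ℝ] V') :
    U M ρ s (fun j => W (c j)) = U M ρ s c := by
  unfold U
  rw [← W.measurePreserving.integral_comp W.toHomeomorph.measurableEmbedding]
  refine integral_congr_ae (Filter.Eventually.of_forall fun y => ?_)
  have h : ∀ j, pw ρ j ((fun j => W (c j)), W y) = pw ρ j (c, y) := by
    intro j
    simp only [pw]
    rw [← map_sub, W.norm_map]
  simp only [cnt, h]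

lemma U_translate (M : ℝ → ℝ) (ρ : Fin n → ℝ) (s : ℝ) (c : Fin n → V) (w : V) :
    U M ρ s (fun j => c j + w) = U M ρ s c := by
  unfold U
  have : ∀ y, cnt ρ s (fun j => c j + w) y = cnt ρ s c (y - w) := by
    intro y
    have h : ∀ j, pw ρ j ((fun j => c j + w), y) = pw ρ j (c, y - w) := by
      intro j
      simp only [pw]
      congr 3
      abel
    simp only [cnt, h]
  simp_rw [this]
  exact integral_sub_right_eq_self (fun y => (M (cnt ρ s c y) - M 0)) w

end isom

section lin

variable {n : ℕ} {V : Type*} [NormedAddCommGroup V] [InnerProductSpace ℝ V]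

/-- linear combinations of a family. -/
noncomputable def comb (a : Fin n → V) : EuclideanSpace ℝ (Fin n) →ₗ[ℝ] V where
  toFun z := ∑ i, z i • a i
  map_add' x y := by simp [add_smul, Finset.sum_add_distrib]
  map_smul' r x := by simp [Finset.smul_sum, mul_smul]

lemma comb_apply (a : Fin n → V) (z : EuclideanSpace ℝ (Fin n)) : comb a z = ∑ i, z i • a i := rfl

lemma comb_single (a : Fin n → V) (i : Fin n) : comb a (EuclideanSpace.single i 1) = a i := by
  rw [comb_apply, Finset.sum_eq_single i]
  · simp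
  · intro j _ hj
    simp [hj]
  · simp

lemma norm_comb_sq (a : Fin n → V) (z : EuclideanSpace ℝ (Fin n)) :
    ‖comb a z‖ ^ 2 = ∑ i, ∑ j, z i * (z j * ((‖a i‖ ^ 2 + ‖a j‖ ^ 2 - ‖a i - a j‖ ^ 2) / 2)) := by
  rw [← real_inner_self_eq_norm_sq, comb_apply, sum_inner]
  refine Finset.sum_congr rfl fun i _ => ?_
  rw [inner_sum]
  refine Finset.sum_congr rfl fun j _ => ?_
  rw [real_inner_smul_left, real_inner_smul_right]
  have h := norm_sub_sq_real (a i) (a j)
  congr 2
  linarith

end lin

theorem iso : T_ISO := by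
  intro d n c p h M ρ s
  rcases Nat.eq_zero_or_pos n with rfl | hn
  · have h1 : ∀ y, cnt ρ s c y = 0 := fun y => by simp [cnt]
    have h2 : ∀ y, cnt ρ s
        (fun i => (WithLp.toLp 2 (p i, 0) : WithLp 2 (Eu d × Eu 4))) y = 0 :=
      fun y => by simp [cnt]
    unfold U
    simp_rw [h1, h2]
    simp
  · let i0 : Fin n := ⟨0, hn⟩
    have hfr : Module.finrank ℝ (WithLp 2 (Eu d × Eu 4)) = Module.finrank ℝ (Eu (d + 4)) := by
      rw [(WithLp.linearEquiv 2 ℝ (Eu d × Eu 4)).finrank_eq, Module.finrank_prod,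
        finrank_euclideanSpace_fin, finrank_euclideanSpace_fin, finrank_euclideanSpace_fin]
    let E : WithLp 2 (Eu d × Eu 4) ≃ₗᵢ[ℝ] Eu (d + 4) :=
      (stdOrthonormalBasis ℝ (WithLp 2 (Eu d × Eu 4))).equiv
        (stdOrthonormalBasis ℝ (Eu (d + 4))) (finCongr hfr)
    let q : Fin n → WithLp 2 (Eu d × Eu 4) := fun i => WithLp.toLp 2 (p i - p i0, 0)
    have hq : ∀ i j, ‖q i - q j‖ = ‖p i - p j‖ := by
      intro i j
      have h1 : q i - q j = WithLp.toLp 2 (p i - p j, 0) := by
        simp only [q]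
        rw [← WithLp.toLp_sub, Prod.mk_sub_mk, sub_sub_sub_cancel_right, sub_zero]
      rw [h1, ← sq_eq_sq₀ (norm_nonneg _) (norm_nonneg _), WithLp.prod_norm_sq_eq_of_L2]
      simp
    have hq0 : q i0 = 0 := by
      simp only [q, sub_self]
      rfl
    obtain ⟨W, hW⟩ := exists_congr (comb fun i => c i - c i0) (comb fun i => E (q i)) (by
      intro z
      rw [← sq_eq_sq₀ (norm_nonneg _) (norm_nonneg _), norm_comb_sq, norm_comb_sq]
      refine Finset.sum_congr rfl fun i _ => Finset.sum_congr rfl fun j _ => ?_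
      rw [sub_sub_sub_cancel_right, ← map_sub, E.norm_map, E.norm_map, E.norm_map, hq, h, h, h]
      have h1 : ∀ i, ‖q i‖ = ‖p i - p i0‖ := by
        intro i
        have := hq i i0
        rwa [hq0, sub_zero] at this
      rw [h1, h1])
    have hW2 : ∀ i, W (c i - c i0) = E (q i) := by
      intro i
      have := hW (EuclideanSpace.single i 1)
      rwa [comb_single, comb_single] at this
    let W' : Eu (d + 4) ≃ₗᵢ[ℝ] WithLp 2 (Eu d × Eu 4) := W.trans E.symm
    have hW3 : ∀ i, W' (c i + -c i0) = q i := by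
      intro i
      show E.symm (W (c i + -c i0)) = q i
      rw [← sub_eq_add_neg, hW2, E.symm_apply_apply]
    rw [← U_translate M ρ s c (-c i0), ← U_isometry M ρ s _ W']
    simp_rw [hW3]
    rw [← U_translate M ρ s q (WithLp.toLp 2 (p i0, 0))]
    congr 1
    funext i
    simp only [q]
    rw [← WithLp.toLp_add, Prod.mk_add_mk, sub_add_cancel, zero_add]

end Pool.Agent.H13.KPO
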